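import Pool.Agent.H34.Linf.Base

/-!
# Property (S), norm convergence and copies of `ℓ_∞` (MP_5127fd_an)
-/

set_option autoImplicit false

open Filter Topology

namespace Pool.Agent.Results.MP_5127fd_an.CopiesOfLinf

open Pool.Agent.H34.Linf

/-- The Banach space of bounded real sequences. -/
abbrev Linf : Type := lp (fun _ : ℕ => ℝ) ⊤

/-- A positive isomorphic embedding of `ℓ_∞` into the space ordered by the cone `K`. -/
def IsPositiveEmbedding {X : Type*} [NormedAddCommGroup X] [NormedSpace ℝ X] (K : Set X)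
    (J : Linf →L[ℝ] X) : Prop :=
  (∀ f : Linf, (∀ k, 0 ≤ f k) → J f ∈ K) ∧ ∃ c : ℝ, 0 < c ∧ ∀ f, c * ‖f‖ ≤ ‖J f‖

variable {X : Type*} [NormedAddCommGroup X] [NormedSpace ℝ X] {K : Set X}

lemma T_pos (hK : IsOrderCone K) (hS : PropertyS K) {d : ℕ → X} (hd : ∀ k, d k ∈ K) {v : X}
    (hv : ∀ N, v - ∑ k ∈ Finset.range N, d k ∈ K) (f : Linf) (hf0 : ∀ k, 0 ≤ f k) :
    T hK hS hd hv f ∈ K := by
  have hf := abs_le_norm f
  have e : T hK hS hd hv f = S K d (fun k => f k + 0) - (0 : ℝ) • S K d (fun _ => 1) := by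
    change S K d (fun k => f k + ‖f‖) - ‖f‖ • S K d (fun _ => 1) = _
    exact T_indep hK hS hd hv (f := fun k => f k) (B := ‖f‖) (c := ‖f‖) (c' := 0)
      (fun k => (abs_le.1 (hf k)).2) (norm_nonneg _) le_rfl
      (fun k => by linarith [(abs_le.1 (hf k)).1]) (fun k => by simpa using hf0 k)
  rw [e]
  have h := (S_spec hK hS hd hv (a := fun k => f k + 0) (C := ‖f‖) (fun k => by simpa using hf0 k)
    (fun k => by simpa using (abs_le.1 (hf k)).2)).1 0
  simpa [P] using h

/-- If some increasing order bounded sequence does not converge, there is a positive copy of `ℓ_∞`. -/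
lemma exists_copy [CompleteSpace X] (hK : IsOrderCone K) (hS : PropertyS K) (x : ℕ → X)
    (hx : Increasing K x) (hb : OrderBounded K x) (hn : ¬ ∃ s, Tendsto x atTop (𝓝 s)) :
    ∃ J : Linf →L[ℝ] X, IsPositiveEmbedding K J := by
  have hcon : ¬ CauchySeq x := fun h => hn (cauchySeq_tendsto_of_complete h)
  rw [Metric.cauchySeq_iff'] at hcon
  push Not at hcon
  obtain ⟨ε, hε, hN⟩ := hcon
  choose g hg1 hg2 using hN
  let φ : ℕ → ℕ := fun k => g^[k] 0
  have hφ : ∀ k, φ (k + 1) = g (φ k) := fun k => Function.iterate_succ_apply' g k 0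
  obtain ⟨w, hw⟩ := hb
  let d : ℕ → X := fun k => x (φ (k + 1)) - x (φ k)
  have hd : ∀ k, d k ∈ K := fun k => incr_le hK hx (by
    rw [hφ]
    exact hg1 _)
  have hsum : ∀ N, ∑ k ∈ Finset.range N, d k = x (φ N) - x (φ 0) := fun N =>
    Finset.sum_range_sub (fun k => x (φ k)) N
  have hv : ∀ N, (w - x (φ 0)) - ∑ k ∈ Finset.range N, d k ∈ K := by
    intro N
    rw [hsum]
    have := hw (φ N)
    convert this using 1
    abel
  have hdn : ∀ k, ε ≤ ‖d k‖ := by
    intro k
    have := hg2 (φ k)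
    rw [← hφ, dist_eq_norm] at this
    exact this
  let Tc : Linf →L[ℝ] X := ⟨T hK hS hd hv, T_cont hK hS hd hv⟩
  have hT1 : ∀ i, Tc (lp.single ⊤ i 1) = d i := fun i => T_single hK hS hd hv i
  obtain ⟨W, hW1, hW2⟩ := fixes_copy ℝ X Tc ε hε (fun i => by rw [hT1]; exact hdn i)
  refine ⟨Tc.comp W, fun f hf => T_pos hK hS hd hv (W f) fun n => ?_, ε / 2, by positivity, hW2⟩
  rcases hW1 f n with h | ⟨k, h⟩
  · rw [h]
  · rw [h]
    exact hf k

/-- A positive copy of `ℓ_∞` yields an increasing order bounded sequence without a limit. -/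
lemma not_conv {J : Linf →L[ℝ] X} (hJ : IsPositiveEmbedding K J) :
    ∃ x : ℕ → X, Increasing K x ∧ OrderBounded K x ∧ ¬ ∃ s, Tendsto x atTop (𝓝 s) := by
  classical
  obtain ⟨h1, c, hc, h2⟩ := hJ
  have mem : ∀ A : Set ℕ, Memℓp (fun k => if k ∈ A then (1 : ℝ) else 0) ⊤ := fun A => by
    refine memℓp_infty ⟨1, ?_⟩
    rintro _ ⟨k, rfl⟩
    by_cases h : k ∈ A <;> simp [h]
  let e : Set ℕ → Linf := fun A => ⟨fun k => if k ∈ A then (1 : ℝ) else 0, mem A⟩
  have he : ∀ A k, e A k = if k ∈ A then (1 : ℝ) else 0 := fun _ _ => rfl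
  have hsub : ∀ A B : Set ℕ, A ⊆ B → J (e B) - J (e A) ∈ K := by
    intro A B hAB
    rw [← map_sub]
    refine h1 _ fun k => ?_
    rw [lp.coeFn_sub, Pi.sub_apply, he, he]
    by_cases hA : k ∈ A
    · simp [hA, hAB hA]
    · by_cases hB : k ∈ B <;> simp [hA, hB]
  refine ⟨fun n => J (e {k | k < n}), fun n => hsub _ _ fun k hk => ?_,
    ⟨J (e Set.univ), fun n => hsub _ _ (Set.subset_univ _)⟩, ?_⟩
  · simp only [Set.mem_ofPred_eq] at hk ⊢
    omega
  · rintro ⟨s, hs⟩
    have hcau := hs.cauchySeq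
    rw [Metric.cauchySeq_iff'] at hcau
    obtain ⟨N, hN⟩ := hcau c hc
    have h3 := hN (N + 1) (Nat.le_succ N)
    rw [dist_eq_norm, ← map_sub] at h3
    have h4 := h2 (e {k | k < N + 1} - e {k | k < N})
    have h5 : 1 ≤ ‖e {k | k < N + 1} - e {k | k < N}‖ := by
      have := lp.norm_apply_le_norm ENNReal.top_ne_zero (e {k | k < N + 1} - e {k | k < N}) N
      rw [lp.coeFn_sub, Pi.sub_apply, he, he] at this
      simpa using this
    nlinarith

/-- **Dichotomy.** Let `X` be a Banach space ordered by a closed cone such that every increasing order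
bounded sequence has a supremum. Then the cone is normal, and every increasing order bounded sequence
converges in norm if and only if there is no positive isomorphic embedding of `ℓ_∞` into `X`. In
particular, all these sequences converge if `X` contains no isomorphic copy of `ℓ_∞` (for instance
if `X` is separable). -/
theorem result (X : Type*) [NormedAddCommGroup X] [NormedSpace ℝ X] [CompleteSpace X]
    (K : Set X) (hK : IsOrderCone K) (hS : PropertyS K) :
    Normal K ∧
    ((∀ x : ℕ → X, Increasing K x → OrderBounded K x → ∃ s, Tendsto x atTop (𝓝 s)) ↔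
      ¬ ∃ J : Linf →L[ℝ] X, IsPositiveEmbedding K J) ∧
    ((¬ ∃ J : Linf →L[ℝ] X, ∃ c : ℝ, 0 < c ∧ ∀ f, c * ‖f‖ ≤ ‖J f‖) →
      ∀ x : ℕ → X, Increasing K x → OrderBounded K x → ∃ s, Tendsto x atTop (𝓝 s)) ∧
    (TopologicalSpace.SeparableSpace X →
      ∀ x : ℕ → X, Increasing K x → OrderBounded K x → ∃ s, Tendsto x atTop (𝓝 s)) := by
  have key : (¬ ∃ J : Linf →L[ℝ] X, ∃ c : ℝ, 0 < c ∧ ∀ f, c * ‖f‖ ≤ ‖J f‖) →
      ∀ x : ℕ → X, Increasing K x → OrderBounded K x → ∃ s, Tendsto x atTop (𝓝 s) := by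
    intro h x hx hb
    by_contra hn
    obtain ⟨J, -, hJ⟩ := exists_copy hK hS x hx hb hn
    exact h ⟨J, hJ⟩
  refine ⟨normal K hK hS, ⟨?_, ?_⟩, key, fun hsep => key ?_⟩
  · rintro h ⟨J, hJ⟩
    obtain ⟨x, hx, hb, hn⟩ := not_conv hJ
    exact hn (h x hx hb)
  · intro h x hx hb
    by_contra hn
    exact h (exists_copy hK hS x hx hb hn)
  · rintro ⟨J, c, hc, hJ⟩
    -- the indicator functions are separated
    classical
    have mem : ∀ A : Set ℕ, Memℓp (fun k => if k ∈ A then (1 : ℝ) else 0) ⊤ := fun A => by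
      refine memℓp_infty ⟨1, ?_⟩
      rintro _ ⟨k, rfl⟩
      by_cases h : k ∈ A <;> simp [h]
    let e : Set ℕ → Linf := fun A => ⟨fun k => if k ∈ A then (1 : ℝ) else 0, mem A⟩
    have he : ∀ A k, e A k = if k ∈ A then (1 : ℝ) else 0 := fun _ _ => rfl
    have hsepd : ∀ A B : Set ℕ, A ≠ B → c ≤ dist (J (e A)) (J (e B)) := by
      intro A B hAB
      obtain ⟨i, hi⟩ : ∃ i, ¬ (i ∈ A ↔ i ∈ B) := by
        by_contra h
        push Not at h
        exact hAB (Set.ext h)
      have h5 : 1 ≤ ‖e A - e B‖ := by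
        have := lp.norm_apply_le_norm ENNReal.top_ne_zero (e A - e B) i
        rw [lp.coeFn_sub, Pi.sub_apply, he, he] at this
        by_cases hA : i ∈ A
        · have hB : i ∉ B := fun h => hi ⟨fun _ => h, fun _ => hA⟩
          simpa [hA, hB] using this
        · have hB : i ∈ B := by
            by_contra h
            exact hi ⟨fun h' => absurd h' hA, fun h' => absurd h' h⟩
          simpa [hA, hB] using this
      rw [dist_eq_norm, ← map_sub]
      have := hJ (e A - e B)
      nlinarith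
    have hcount : (Set.univ : Set (Set ℕ)).Countable := by
      refine Set.PairwiseDisjoint.countable_of_isOpen
        (s := fun A : Set ℕ => Metric.ball (J (e A)) (c / 2)) ?_
        (fun A _ => Metric.isOpen_ball) (fun A _ => ⟨_, Metric.mem_ball_self (by positivity)⟩)
      intro A _ B _ hAB
      refine Metric.ball_disjoint_ball ?_
      have := hsepd A B hAB
      linarith
    rw [Set.countable_univ_iff] at hcount
    obtain ⟨g, hg⟩ := exists_surjective_nat (Set ℕ)
    exact Function.cantor_surjective _ hg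

end Pool.Agent.Results.MP_5127fd_an.CopiesOfLinf
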